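import Pool.Agent.H23.GA.Targets

/-! Module AP: the cardinality of the balls and its prime divisors. -/

set_option autoImplicit false

open Finset Polynomial Filter Topology
open scoped Classical

namespace Pool.Agent.H54.GA

open Pool.Agent.H23.GW Pool.Agent.H23.GA

noncomputable section

/-- `n!` times the cardinality of the ball, as a polynomial in `2 m + 1`. -/
def H : ℕ → ℤ[X]
  | 0 => 1
  | n + 1 => ∑ k : Fin (n + 1), C ((n.descFactorial k.1 : ℕ) : ℤ) *
      ((if Even k.1 then X else 1) * H (n - k.1))

theorem H_zero : H 0 = 1 := by rw [H]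

theorem H_succ (n : ℕ) : H (n + 1) = ∑ k ∈ range (n + 1), C ((n.descFactorial k : ℕ) : ℤ) *
      ((if Even k then X else 1) * H (n - k)) := by
  rw [H, Finset.sum_range]

theorem aa_zero (m : ℕ) : aa m 0 = 1 := by
  unfold aa ball
  rw [Finset.card_eq_one]
  refine ⟨0, ?_⟩
  ext c
  simp only [mem_filter, Fintype.mem_piFinset, mem_Icc, mem_singleton, Nat.cast_zero, neg_zero]
  constructor
  · rintro ⟨h, _⟩
    funext i
    exact le_antisymm (h i).2 (h i).1
  · rintro rfl
    simp

theorem aa_rec (hGF : T_GF) (m n : ℕ) : ((n : ℤ) + 1) * (aa m (n + 1) : ℤ) =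
    ∑ k ∈ range (n + 1), (if Even k then 2 * (m : ℤ) + 1 else 1) * (aa m (n - k) : ℤ) := by
  have h := hGF (Fin m) ℤ (fun _ => 1) (n + 1)
  have e1 : ∀ j, ∑ c ∈ ball (Fin m) j, ∏ i, (((1 : ℤˣ) ^ c i : ℤˣ) : ℤ) = (aa m j : ℤ) := by
    intro j
    simp [aa]
  simp only [e1] at h
  rw [← Finset.Ico_add_one_right_eq_Icc, Finset.sum_Ico_eq_sum_range] at h
  push_cast at h
  rw [h]
  refine Finset.sum_congr rfl fun k _ => ?_
  have e2 : n + 1 - (1 + k) = n - k := by omega
  rw [e2]
  by_cases hk : Even k
  · have h1 : ¬ Even (1 + k) := by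
      rw [Nat.even_add]
      simp [hk]
    rw [if_pos hk, if_neg h1]
    congr 1
    simp
    ring
  · have h1 : Even (1 + k) := by
      rw [Nat.even_add]
      simp [hk]
    rw [if_neg hk, if_pos h1]
    congr 1
    simp
    ring

theorem H_eval (hGF : T_GF) (m : ℕ) : ∀ n : ℕ, (H n).eval (2 * (m : ℤ) + 1) =
    (n.factorial : ℤ) * (aa m n : ℤ) := by
  intro n
  induction n using Nat.strong_induction_on with
  | _ n ih =>
    rcases n with _ | n
    · rw [H_zero, aa_zero]
      simp
    · rw [H_succ, eval_finsetSum]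
      have h1 : ∀ k ∈ range (n + 1), (C ((n.descFactorial k : ℕ) : ℤ) *
          ((if Even k then X else 1) * H (n - k))).eval (2 * (m : ℤ) + 1) =
          (n.factorial : ℤ) * ((if Even k then 2 * (m : ℤ) + 1 else 1) * (aa m (n - k) : ℤ)) := by
        intro k hk
        have hk' : k ≤ n := by
          have := mem_range.1 hk
          omega
        rw [eval_mul, eval_mul, eval_C, ih (n - k) (by omega)]
        have h2 : (n.descFactorial k : ℤ) * ((n - k).factorial : ℤ) = (n.factorial : ℤ) := by
          have := Nat.factorial_mul_descFactorial hk'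
          rw [← this]
          push_cast
          ring
        have h3 : (if Even k then (X : ℤ[X]) else 1).eval (2 * (m : ℤ) + 1) =
            if Even k then 2 * (m : ℤ) + 1 else 1 := by
          split_ifs <;> simp
        rw [h3, ← h2]
        ring
      rw [Finset.sum_congr rfl h1, ← Finset.mul_sum, ← aa_rec hGF, Nat.factorial_succ]
      push_cast
      ring

theorem H_deg : ∀ n : ℕ, (H n).natDegree ≤ n ∧ (H n).coeff n = 1 := by
  intro n
  induction n using Nat.strong_induction_on with
  | _ n ih =>
    rcases n with _ | n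
    · rw [H_zero]
      simp
    · have hdeg : ∀ k ∈ range (n + 1), (C ((n.descFactorial k : ℕ) : ℤ) *
          ((if Even k then X else 1) * H (n - k))).natDegree ≤ 1 + (n - k) := by
        intro k hk
        have hk' : k ≤ n := by
          have := mem_range.1 hk
          omega
        have h1 := (ih (n - k) (by omega)).1
        refine (natDegree_C_mul_le _ _).trans (natDegree_mul_le.trans ?_)
        have h2 : (if Even k then (X : ℤ[X]) else 1).natDegree ≤ 1 := by
          split_ifs
          · exact natDegree_X_le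
          · simp
        omega
      constructor
      · rw [H_succ]
        refine natDegree_sum_le_of_forall_le _ _ fun k hk => ?_
        have := hdeg k hk
        omega
      · rw [H_succ, finsetSum_coeff, Finset.sum_eq_single 0]
        · rw [coeff_C_mul, if_pos Even.zero, coeff_X_mul, Nat.sub_zero, (ih n (by omega)).2]
          simp
        · intro k hk hk0
          refine coeff_eq_zero_of_natDegree_lt (lt_of_le_of_lt (hdeg k hk) ?_)
          have := mem_range.1 hk
          omega
        · intro h
          exact absurd (mem_range.2 (Nat.succ_pos n)) h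

theorem H_natDegree (n : ℕ) : (H n).natDegree = n := by
  refine le_antisymm (H_deg n).1 (le_natDegree_of_ne_zero ?_)
  rw [(H_deg n).2]
  exact one_ne_zero

theorem H_nonneg : ∀ n j : ℕ, 0 ≤ (H n).coeff j := by
  intro n
  induction n using Nat.strong_induction_on with
  | _ n ih =>
    rcases n with _ | n
    · intro j
      rw [H_zero, coeff_one]
      split_ifs <;> norm_num
    · intro j
      rw [H_succ, finsetSum_coeff]
      refine Finset.sum_nonneg fun k hk => ?_
      have hk' : n - k < n + 1 := by omega
      rw [coeff_C_mul]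
      refine mul_nonneg (by positivity) ?_
      split_ifs
      · rcases j with _ | j
        · rw [coeff_X_mul_zero]
        · rw [coeff_X_mul]
          exact ih _ hk' j
      · rw [one_mul]
        exact ih _ hk' j

theorem H_odd : ∀ n : ℕ, Odd n → (H n).coeff 0 = 0 := by
  intro n
  induction n using Nat.strong_induction_on with
  | _ n ih =>
    intro hn
    rcases n with _ | n
    · exact absurd hn (by decide)
    · have hn' : Even n := by
        rw [Nat.odd_add_one, Nat.not_odd_iff_even] at hn
        exact hn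
      rw [H_succ, finsetSum_coeff]
      refine Finset.sum_eq_zero fun k hk => ?_
      have hk' : k ≤ n := by
        have := mem_range.1 hk
        omega
      rw [coeff_C_mul]
      split_ifs with h
      · rw [coeff_X_mul_zero, mul_zero]
      · rw [one_mul, ih (n - k) (by omega) (Nat.Even.sub_odd hk' hn' (Nat.not_even_iff_odd.1 h)),
          mul_zero]

theorem H_one_pos {n : ℕ} (hn : Even n) : 0 < (H (n + 1)).coeff 1 := by
  rw [H_succ, finsetSum_coeff]
  refine Finset.sum_pos' (fun k hk => ?_) ⟨n, mem_range.2 (Nat.lt_succ_self n), ?_⟩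
  · rw [coeff_C_mul]
    refine mul_nonneg (by positivity) ?_
    split_ifs
    · rw [coeff_X_mul]
      exact H_nonneg _ _
    · rw [one_mul]
      exact H_nonneg _ _
  · rw [coeff_C_mul, if_pos hn, coeff_X_mul, Nat.sub_self, H_zero, coeff_one_zero, mul_one,
      Nat.descFactorial_self]
    exact_mod_cast Nat.factorial_pos n

theorem comp_natDegree (g : ℤ[X]) : (g.comp (2 * X + 1 : ℤ[X])).natDegree = g.natDegree := by
  have h1 : (2 * X + 1 : ℤ[X]).natDegree = 1 := by
    have : (2 * X + 1 : ℤ[X]) = C 2 * X + C 1 := by simp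
    rw [this, natDegree_linear (by norm_num)]
  rw [natDegree_comp, h1, mul_one]

theorem comp_eval (g : ℤ[X]) (m : ℤ) : (g.comp (2 * X + 1 : ℤ[X])).eval m = g.eval (2 * m + 1) := by
  rw [eval_comp]
  simp

theorem dvd_of_dvd_fact {p s N : ℕ} (hp : p.Prime) (hs : s < p)
    (h : (p : ℤ) ∣ (s.factorial : ℤ) * (N : ℤ)) : p ∣ N := by
  have h1 : p ∣ s.factorial * N := by exact_mod_cast h
  rcases (Nat.Prime.dvd_mul hp).1 h1 with h2 | h2
  · exact absurd ((Nat.Prime.dvd_factorial hp).1 h2) (by omega)
  · exact h2

/-- Module AP. -/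
theorem ap (hGF : T_GF) : T_AP := by
  intro s hs
  rcases Nat.even_or_odd s with he | ho
  · refine ⟨(H s).comp (2 * X + 1), s + 1, ?_, ?_⟩
    · rw [comp_natDegree, H_natDegree]
      omega
    · intro p hp hP m hdvd
      rw [comp_eval, H_eval hGF] at hdvd
      exact ⟨dvd_of_dvd_fact hp (by omega) hdvd, Or.inl he⟩
  · obtain ⟨n, hn⟩ := ho
    have hn' : s = 2 * n + 1 := hn
    set g0 := (H s).divX with hg0
    have hc0 : (H s).coeff 0 = 0 := H_odd s ⟨n, hn⟩
    have hX : X * g0 = H s := by
      have := X_mul_divX_add (H s)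
      rw [hc0, C_0, add_zero] at this
      exact this
    have hc1 : 0 < g0.coeff 0 := by
      rw [hg0, coeff_divX, zero_add, hn']
      exact H_one_pos ⟨n, by ring⟩
    refine ⟨g0.comp (2 * X + 1), s + (g0.coeff 0).toNat + 1, ?_, ?_⟩
    · rw [comp_natDegree, hg0, natDegree_divX_eq_natDegree_tsub_one, H_natDegree]
      omega
    · intro p hp hP m hdvd
      rw [comp_eval] at hdvd
      have h1 : (p : ℤ) ∣ (H s).eval (2 * (m : ℤ) + 1) := by
        rw [← hX, eval_mul]
        exact Dvd.dvd.mul_left hdvd _
      rw [H_eval hGF] at h1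
      refine ⟨dvd_of_dvd_fact hp (by omega) h1, Or.inr fun h2 => ?_⟩
      have h3 : (p : ℤ) ∣ 2 * (m : ℤ) + 1 - 0 := by
        rw [sub_zero]
        exact_mod_cast h2
      have h4 : (p : ℤ) ∣ g0.eval (2 * (m : ℤ) + 1) - g0.eval 0 :=
        h3.trans (sub_dvd_eval_sub _ _ _)
      have h5 : (p : ℤ) ∣ g0.eval 0 := by
        have := dvd_sub hdvd h4
        rwa [sub_sub_cancel] at this
      rw [← coeff_zero_eq_eval_zero] at h5
      have h6 := Int.le_of_dvd hc1 h5
      omega

end

end Pool.Agent.H54.GA
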