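import Pool.Agent.H23.GA.Targets

/-! Module FD: the final theorem. -/

set_option autoImplicit false

open Finset Polynomial Filter Topology
open scoped Classical

namespace Pool.Agent.H54.GA.FD

open Pool.Agent.H23.GW Pool.Agent.H23.GA

noncomputable section

/-- sizes with a prime divisor of the cardinality -/
theorem part2 (hRD : T_RD) (hCT : T_CT) : ∀ s p : ℕ, 2 ≤ s → p.Prime → s < p → ∃ K : ℝ, ∀ Y : ℕ,
    (#{m ∈ range Y | IsSize s m ∧ p ∣ aa m s ∧ (Even s ∨ ¬ p ∣ 2 * m + 1)} : ℝ) ≤ K * √Y := by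
  intro s p hs hp hsp
  obtain ⟨K, hK⟩ := hCT s p hs hp hsp
  refine ⟨K, fun Y => le_trans ?_ (hK Y)⟩
  refine Nat.cast_le.2 (Finset.card_le_card fun m hm => ?_)
  rw [mem_filter] at hm ⊢
  obtain ⟨hmY, ⟨G, iG, fG, A, hA, hPS⟩, hd, hc⟩ := hm
  refine ⟨hmY, hc, ?_⟩
  have : Fintype G := Fintype.ofFinite G
  obtain ⟨h1, h2⟩ := hRD G A s p hPS (by omega)
  rw [hA] at h1 h2
  exact h2 hp (by rw [h1]; exact hd)

theorem sqrt_div_tendsto (K : ℝ) : Tendsto (fun Y : ℕ => K * √(Y : ℝ) / Y) atTop (𝓝 0) := by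
  have h1 : Tendsto (fun Y : ℕ => K * (√(Y : ℝ))⁻¹) atTop (𝓝 (K * 0)) := by
    refine tendsto_const_nhds.mul ?_
    exact tendsto_inv_atTop_zero.comp (Real.tendsto_sqrt_atTop.comp tendsto_natCast_atTop_atTop)
  rw [mul_zero] at h1
  refine h1.congr fun Y => ?_
  rcases Nat.eq_zero_or_pos Y with h | h
  · subst h
    simp
  · have h2 : 0 < (Y : ℝ) := by exact_mod_cast h
    have h3 : 0 < √(Y : ℝ) := Real.sqrt_pos.2 h2
    rw [mul_div_assoc]
    congr 1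
    rw [eq_div_iff h2.ne', inv_mul_eq_div, div_eq_iff h3.ne']
    exact (Real.mul_self_sqrt h2.le).symm

/-- Module FD. -/
theorem fd (hRD : T_RD) (hCT : T_CT) (hAP : T_AP) (hRO : T_RO) (hSV : T_SV) : T_FD := by
  refine ⟨fun s hs => ?_, part2 hRD hCT⟩
  obtain ⟨g, P₀, hdeg, hg⟩ := hAP s hs
  let P : Set ℕ := {p | p.Prime ∧ s < p ∧ P₀ ≤ p ∧ ∃ m : ℕ, (p : ℤ) ∣ g.eval (m : ℤ)}
  let r : ℕ → ℕ := fun p => if h : ∃ m : ℕ, (p : ℤ) ∣ g.eval (m : ℤ) then h.choose else 0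
  have hr : ∀ p ∈ P, (p : ℤ) ∣ g.eval (r p : ℤ) := by
    intro p hp
    have h : ∃ m : ℕ, (p : ℤ) ∣ g.eval (m : ℤ) := hp.2.2.2
    show (p : ℤ) ∣ g.eval ((if h : ∃ m : ℕ, (p : ℤ) ∣ g.eval (m : ℤ) then h.choose else 0 : ℕ) : ℤ)
    rw [dif_pos h]
    exact h.choose_spec
  have hns : ¬ Summable (fun p : P => (1 : ℝ) / p.1) := by
    intro hsum
    refine hRO g hdeg ?_
    let Q : Set ℕ := {p : ℕ | p.Prime ∧ ∃ m : ℕ, (p : ℤ) ∣ g.eval (m : ℤ)}
    show Summable (fun p : Q => (1 : ℝ) / p.1)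
    have h1 : Summable (P.indicator fun n : ℕ => (1 : ℝ) / n) :=
      summable_subtype_iff_indicator.1 hsum
    have h2 : Summable (Q.indicator fun n : ℕ => (1 : ℝ) / n) := by
      refine (summable_congr_cofinite ?_).1 h1
      rw [Nat.cofinite_eq_atTop]
      filter_upwards [eventually_gt_atTop (s + P₀)] with n hn
      by_cases hQ : n ∈ Q
      · have hP : n ∈ P := ⟨hQ.1, by omega, by omega, hQ.2⟩
        rw [Set.indicator_of_mem hQ, Set.indicator_of_mem hP]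
      · have hP : n ∉ P := fun h => hQ ⟨h.1, h.2.2.2⟩
        rw [Set.indicator_of_notMem hQ, Set.indicator_of_notMem hP]
    exact summable_subtype_iff_indicator.2 h2
  refine hSV {m | IsSize s m} P r (fun p hp => hp.1) hns fun p hp => ?_
  obtain ⟨K, hK⟩ := part2 hRD hCT s p hs hp.1 hp.2.1
  refine squeeze_zero (fun Y => by positivity) (fun Y => ?_) (sqrt_div_tendsto K)
  gcongr
  refine le_trans ?_ (hK Y)
  refine Nat.cast_le.2 (Finset.card_le_card fun m hm => ?_)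
  rw [mem_filter] at hm ⊢
  obtain ⟨hmY, hmS, hmod⟩ := hm
  refine ⟨hmY, hmS, ?_⟩
  refine hg p hp.1 hp.2.2.1 m ?_
  have h1 : (p : ℤ) ∣ (m : ℤ) - (r p : ℤ) := by
    have := (Nat.modEq_iff_dvd.1 hmod.symm)
    exact this
  have h2 : (p : ℤ) ∣ g.eval (m : ℤ) - g.eval (r p : ℤ) := h1.trans (sub_dvd_eval_sub _ _ _)
  have h3 := dvd_add h2 (hr p hp)
  rwa [sub_add_cancel] at h3

end

end Pool.Agent.H54.GA.FD
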