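import Pool.Agent.H23.GA.Targets

/-! Module RD: the image of a perfect spanning set in a quotient of prime order. -/

set_option autoImplicit false

open Finset Polynomial Filter Topology
open scoped Classical

namespace Pool.Agent.H54.GA.RD

open Pool.Agent.H23.GW Pool.Agent.H23.GA

noncomputable section

theorem mem_ball {ι : Type} [Fintype ι] {n : ℕ} {c : ι → ℤ} :
    c ∈ ball ι n ↔ ∑ i, |c i| ≤ (n : ℤ) := by
  unfold ball
  rw [mem_filter, Fintype.mem_piFinset]
  constructor
  · exact fun h => h.2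
  · intro h
    refine ⟨fun i => ?_, h⟩
    have h1 : |c i| ≤ ∑ j, |c j| :=
      Finset.single_le_sum (f := fun j => |c j|) (fun j _ => abs_nonneg _) (mem_univ i)
    rw [mem_Icc]
    exact abs_le.1 (h1.trans h)

theorem card_ball {ι κ : Type} [Fintype ι] [Fintype κ] (e : ι ≃ κ) (n : ℕ) :
    #(ball ι n) = #(ball κ n) := by
  refine Finset.card_bij' (fun c _ => fun j => c (e.symm j)) (fun c _ => fun i => c (e i))
    ?_ ?_ ?_ ?_
  · intro c hc
    rw [mem_ball] at hc ⊢
    exact (Equiv.sum_comp e.symm (fun i => |c i|)).trans_le hc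
  · intro c hc
    rw [mem_ball] at hc ⊢
    exact (Equiv.sum_comp e (fun j => |c j|)).trans_le hc
  · intro c _
    funext i
    simp
  · intro c _
    funext j
    simp

section
variable {G : Type} [AddCommGroup G] {A : Finset G} {s : ℕ}

/-- evaluation of a coefficient vector -/
def ev (A : Finset G) (c : A → ℤ) : G := ∑ a, c a • (a : G)

theorem ev_bij [Fintype G] (hA : PerfectSpanning A s) {M : Type} [AddCommMonoid M] (F : G → M) :
    ∑ c ∈ ball A s, F (ev A c) = ∑ g, F g := by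
  refine Finset.sum_bij' (fun c _ => ev A c) (fun g _ => (hA g).choose) ?_ ?_ ?_ ?_ ?_
  · intro c _
    exact mem_univ _
  · intro g _
    rw [mem_ball]
    exact (hA g).choose_spec.1.1
  · intro c hc
    rw [mem_ball] at hc
    exact ((hA (ev A c)).choose_spec.2 c ⟨hc, rfl⟩).symm
  · intro g _
    exact (hA g).choose_spec.1.2
  · intro c _
    rfl

theorem card_eq [Fintype G] (hA : PerfectSpanning A s) : Fintype.card G = aa #A s := by
  have h := ev_bij hA (fun _ => (1 : ℕ))
  rw [Finset.sum_const, Finset.sum_const, smul_eq_mul, mul_one, smul_eq_mul, mul_one,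
    Finset.card_univ] at h
  rw [← h]
  unfold aa
  refine card_ball ?_ s
  exact A.equivFin

theorem exists_dual0 {K V : Type} [Field K] [AddCommGroup V] [Module K V] {x : V} (hx : x ≠ 0) :
    ∃ f : V →+ K, f x ≠ 0 := by
  by_contra hcon
  push Not at hcon
  refine hx ((Module.forall_dual_apply_eq_zero_iff K x).1 fun φ => ?_)
  exact hcon φ.toAddMonoidHom

theorem exists_dual {Q : Type} [AddCommGroup Q] {p : ℕ} (hp : p.Prime) (hQ : ∀ x : Q, p • x = 0)
    {x : Q} (hx : x ≠ 0) : ∃ f : Q →+ ZMod p, f x ≠ 0 := by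
  have : Fact p.Prime := ⟨hp⟩
  exact @exists_dual0 (ZMod p) Q _ _ (AddCommGroup.zmodModule hQ) x hx

/-- a nonzero homomorphism to `ZMod p` -/
theorem exists_hom [Fintype G] {p : ℕ} (hp : p.Prime) (hd : p ∣ Fintype.card G) :
    ∃ f : G →+ ZMod p, ∃ g, f g ≠ 0 := by
  have : Fact p.Prime := ⟨hp⟩
  -- multiplication by p is not surjective
  have h1 : ¬ Function.Injective (fun g : G => p • g) := by
    obtain ⟨x, hx⟩ := exists_prime_addOrderOf_dvd_card (G := G) p hd
    intro hinj
    have h2 : p • x = p • (0 : G) := by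
      rw [← hx, addOrderOf_nsmul_eq_zero, nsmul_zero]
    have h3 := hinj h2
    rw [h3, addOrderOf_zero] at hx
    exact hp.one_lt.ne hx
  have h2 : ¬ Function.Surjective (fun g : G => p • g) := fun h =>
    h1 (Finite.injective_iff_surjective.2 h)
  have h3 : ∃ g0 : G, ∀ g, p • g ≠ g0 := by
    by_contra hcon
    push Not at hcon
    exact h2 fun g => hcon g
  obtain ⟨g0, hg0⟩ := h3
  let N : AddSubgroup G := (nsmulAddMonoidHom (α := G) p).range
  let Q := G ⧸ N
  have hQ : ∀ x : Q, p • x = 0 := by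
    intro x
    induction x using QuotientAddGroup.induction_on with
    | H z =>
      rw [← QuotientAddGroup.mk_nsmul, QuotientAddGroup.eq_zero_iff]
      exact ⟨z, rfl⟩
  have h4 : (QuotientAddGroup.mk g0 : Q) ≠ 0 := by
    intro h
    rw [QuotientAddGroup.eq_zero_iff] at h
    obtain ⟨g, hg⟩ := h
    exact hg0 g hg
  obtain ⟨φ, hφ⟩ := exists_dual hp hQ h4
  exact ⟨φ.comp (QuotientAddGroup.mk' N), g0, hφ⟩

end

section
variable {p : ℕ} [hp : Fact p.Prime]

/-- the real part of the standard character -/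
def kap (x : ZMod p) : ℝ := (ZMod.stdAddChar x).re

theorem kap_neg (x : ZMod p) : kap (-x) = kap x := by
  unfold kap
  rw [AddChar.map_neg_eq_conj, Complex.conj_re]

theorem std_add (x : ZMod p) :
    ZMod.stdAddChar x + ZMod.stdAddChar (-x) = (2 * kap x : ℂ) := by
  rw [AddChar.map_neg_eq_conj, Complex.add_conj]
  unfold kap
  push_cast
  ring

theorem kap_cos (t : ZMod p) (c : ℕ) :
    kap (t * (c : ZMod p)) = Real.cos (2 * Real.pi * ((t.val * c : ℕ) : ℝ) / p) := by
  have h1 : t * (c : ZMod p) = (((t.val * c : ℕ) : ℤ) : ZMod p) := by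
    push_cast
    rw [ZMod.natCast_zmod_val]
  unfold kap
  rw [h1, ZMod.stdAddChar_coe]
  have h2 : (2 * (Real.pi : ℂ) * Complex.I * (((t.val * c : ℕ) : ℤ) : ℂ) / (p : ℂ)) =
      ((2 * Real.pi * ((t.val * c : ℕ) : ℝ) / p : ℝ) : ℂ) * Complex.I := by
    push_cast
    ring
  rw [h2, Complex.exp_ofReal_mul_I_re]

theorem sum_range_zmod {M : Type} [AddCommMonoid M] (F : ZMod p → M) :
    ∑ c ∈ range p, F (c : ZMod p) = ∑ x : ZMod p, F x := by
  have : NeZero p := ⟨hp.out.ne_zero⟩
  refine Finset.sum_bij' (fun c _ => (c : ZMod p)) (fun x _ => x.val) ?_ ?_ ?_ ?_ ?_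
  · intro c _
    exact mem_univ _
  · intro x _
    exact mem_range.2 (ZMod.val_lt x)
  · intro c hc
    exact ZMod.val_cast_of_lt (mem_range.1 hc)
  · intro x _
    exact ZMod.natCast_zmod_val x
  · intro c _
    rfl

theorem cs_eq (τ : ZMod p → ℕ) (t : ZMod p) : cs p τ t = ∑ x : ZMod p, (τ x : ℝ) * kap (t * x) := by
  rw [← sum_range_zmod (fun x => (τ x : ℝ) * kap (t * x))]
  unfold cs
  exact Finset.sum_congr rfl fun c _ => by rw [kap_cos]

/-- the image tile -/
def tau {G : Type} [AddCommGroup G] (A : Finset G) (f : G →+ ZMod p) (x : ZMod p) : ℕ :=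
  (if x = 0 then 1 else 0) + ∑ a : A, (if f a = x then 1 else 0) +
    ∑ a : A, (if f a = -x then 1 else 0)

theorem tau_sum {G : Type} [AddCommGroup G] (A : Finset G) (f : G →+ ZMod p) (F : ZMod p → ℝ)
    (hF : ∀ x, F (-x) = F x) :
    ∑ x : ZMod p, (tau A f x : ℝ) * F x = F 0 + 2 * ∑ a : A, F (f a) := by
  have : NeZero p := ⟨hp.out.ne_zero⟩
  unfold tau
  push_cast
  simp only [add_mul, Finset.sum_mul, Finset.sum_add_distrib]
  have h1 : ∑ x : ZMod p, (if x = 0 then (1 : ℝ) else 0) * F x = F 0 := by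
    simp [ite_mul]
  have h2 : ∑ x : ZMod p, ∑ a : A, (if f a = x then (1 : ℝ) else 0) * F x = ∑ a : A, F (f a) := by
    rw [Finset.sum_comm]
    refine Finset.sum_congr rfl fun a _ => ?_
    simp [ite_mul]
  have h3 : ∑ x : ZMod p, ∑ a : A, (if f a = -x then (1 : ℝ) else 0) * F x =
      ∑ a : A, F (f a) := by
    rw [← h2]
    rw [← Equiv.sum_comp (Equiv.neg (ZMod p))]
    refine Finset.sum_congr rfl fun x _ => Finset.sum_congr rfl fun a _ => ?_
    rw [Equiv.neg_apply, neg_neg, hF]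
  rw [h1, h2, h3]
  ring

end

theorem BP_zero (v : ℕ → ℝ) : BP v 0 = 1 := by rw [BP]

theorem BP_succ (v : ℕ → ℝ) (n : ℕ) (m : ℝ) : ((n : ℝ) + 1) * (BP v (n + 1)).eval m =
    ∑ k ∈ range (n + 1), (v (k + 1) - if Even (k + 1) then 2 * m else 0) *
      (BP v (n - k)).eval m := by
  rw [BP, eval_mul, eval_C, ← mul_assoc, mul_inv_cancel₀ (by positivity), one_mul,
    eval_finsetSum, Finset.sum_range]
  refine Finset.sum_congr rfl fun k _ => ?_
  rw [eval_mul, eval_sub, eval_C]
  congr 2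
  split_ifs <;> simp

section
variable {G : Type} [AddCommGroup G] [Fintype G] {A : Finset G} {s p : ℕ} [hp : Fact p.Prime]

/-- the values of the character at the elements of `A` -/
def uu (A : Finset G) (f : G →+ ZMod p) (t : ZMod p) (a : A) : ℂˣ :=
  ⟨ZMod.stdAddChar (t * f a), ZMod.stdAddChar (-(t * f a)), by
    rw [← AddChar.map_add_eq_mul, add_neg_cancel, AddChar.map_zero_eq_one], by
    rw [← AddChar.map_add_eq_mul, neg_add_cancel, AddChar.map_zero_eq_one]⟩

omit [Fintype G] in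
theorem uu_pow (f : G →+ ZMod p) (t : ZMod p) (a : A) (k : ℕ) :
    ((uu A f t a ^ k : ℂˣ) : ℂ) + (((uu A f t a)⁻¹ ^ k : ℂˣ) : ℂ) =
      (2 * kap ((k : ZMod p) * t * f a) : ℂ) := by
  rw [← std_add]
  have h1 : ((uu A f t a ^ k : ℂˣ) : ℂ) = ZMod.stdAddChar ((k : ZMod p) * t * f a) := by
    rw [Units.val_pow_eq_pow_val]
    show ZMod.stdAddChar (t * f a) ^ k = _
    rw [← AddChar.map_nsmul_eq_pow, nsmul_eq_mul, mul_assoc]
  have h2 : (((uu A f t a)⁻¹ ^ k : ℂˣ) : ℂ) = ZMod.stdAddChar (-((k : ZMod p) * t * f a)) := by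
    rw [Units.val_pow_eq_pow_val]
    show ZMod.stdAddChar (-(t * f a)) ^ k = _
    rw [← AddChar.map_nsmul_eq_pow, nsmul_eq_mul]
    congr 1
    ring
  rw [h1, h2]

omit [Fintype G] hp in
theorem sum_prod {ι K : Type} [AddCommGroup K] (ψ : AddChar K ℂ) (T : Finset ι) (F : ι → K) :
    ψ (∑ i ∈ T, F i) = ∏ i ∈ T, ψ (F i) := by
  induction T using Finset.cons_induction with
  | empty => simp
  | cons a T ha ih => rw [Finset.sum_cons, Finset.prod_cons, AddChar.map_add_eq_mul, ih]

omit [Fintype G] in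
theorem uu_prod (f : G →+ ZMod p) (t : ZMod p) (c : A → ℤ) :
    ∏ a, ((uu A f t a ^ c a : ℂˣ) : ℂ) = ZMod.stdAddChar (t * f (ev A c)) := by
  have h1 : ∀ a : A, ((uu A f t a ^ c a : ℂˣ) : ℂ) = ZMod.stdAddChar (c a • (t * f a)) := by
    intro a
    rw [Units.val_zpow_eq_zpow_val]
    show ZMod.stdAddChar (t * f a) ^ c a = _
    rw [AddChar.map_zsmul_eq_zpow]
  simp only [h1]
  rw [← sum_prod]
  congr 1
  unfold ev
  rw [map_sum, Finset.mul_sum]
  refine Finset.sum_congr rfl fun a _ => ?_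
  rw [map_zsmul, mul_smul_comm]

omit [Fintype G] in
theorem VV_eq (f : G →+ ZMod p) (t : ZMod p) (k : ℕ) :
    (1 : ℂ) + ∑ a : A, (((uu A f t a ^ k : ℂˣ) : ℂ) + (((uu A f t a)⁻¹ ^ k : ℂˣ) : ℂ)) =
      ((cs p (tau A f) ((k : ZMod p) * t) : ℝ) : ℂ) := by
  simp only [uu_pow]
  rw [cs_eq, tau_sum A f (fun x => kap ((k : ZMod p) * t * x)) (fun x => by
    show kap ((k : ZMod p) * t * -x) = _
    rw [mul_neg, kap_neg])]
  have h0 : kap ((k : ZMod p) * t * 0) = 1 := by
    unfold kap
    rw [mul_zero, AddChar.map_zero_eq_one, Complex.one_re]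
  rw [h0]
  push_cast
  rw [← Finset.mul_sum]

theorem B_eq (hGF : T_GF) (f : G →+ ZMod p) (t : ZMod p) : ∀ n : ℕ,
    ∑ c ∈ ball A n, ∏ a, ((uu A f t a ^ c a : ℂˣ) : ℂ) =
      (((BP (fun k => cs p (tau A f) ((k : ZMod p) * t)) n).eval (#A : ℝ) : ℝ) : ℂ) := by
  intro n
  induction n using Nat.strong_induction_on with
  | _ n ih =>
    rcases n with _ | n
    · rw [BP_zero]
      have h1 : ball A 0 = {0} := by
        ext c
        rw [mem_ball, mem_singleton, Nat.cast_zero]
        constructor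
        · intro h
          funext i
          have h2 : |c i| ≤ ∑ j, |c j| :=
            Finset.single_le_sum (f := fun j => |c j|) (fun j _ => abs_nonneg _) (mem_univ i)
          exact abs_nonpos_iff.1 (h2.trans h)
        · rintro rfl
          simp
      rw [h1]
      simp
    · have h1 := hGF A ℂ (uu A f t) (n + 1)
      have h2 := BP_succ (fun k => cs p (tau A f) ((k : ZMod p) * t)) n (#A : ℝ)
      have hn : ((n : ℂ) + 1) ≠ 0 := by exact_mod_cast Nat.succ_ne_zero n
      refine mul_left_cancel₀ hn ?_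
      rw [Nat.cast_add, Nat.cast_one] at h1
      rw [h1]
      have h3 : ((n : ℂ) + 1) *
          (((BP (fun k => cs p (tau A f) ((k : ZMod p) * t)) (n + 1)).eval (#A : ℝ) : ℝ) : ℂ) =
          (((((n : ℝ) + 1) * (BP (fun k => cs p (tau A f) ((k : ZMod p) * t)) (n + 1)).eval
            (#A : ℝ)) : ℝ) : ℂ) := by
        push_cast
        ring
      rw [h3, h2, ← Finset.Ico_add_one_right_eq_Icc, Finset.sum_Ico_eq_sum_range,
        Complex.ofReal_sum]
      refine Finset.sum_congr rfl fun k hk => ?_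
      have e2 : n + 1 - (1 + k) = n - k := by omega
      have hk' : n - k < n + 1 := by omega
      rw [VV_eq, e2, ih (n - k) hk', Fintype.card_coe]
      rw [add_comm 1 k, Complex.ofReal_mul, Complex.ofReal_sub]
      congr 2
      split_ifs <;> simp

theorem char_sum {f : G →+ ZMod p} (hf : ∃ g, f g ≠ 0) {t : ZMod p} (ht : t ≠ 0) :
    ∑ g, ZMod.stdAddChar (t * f g) = 0 := by
  let χ : AddChar G ℂ :=
    { toFun := fun g => ZMod.stdAddChar (t * f g)
      map_zero_eq_one' := by rw [map_zero, mul_zero, AddChar.map_zero_eq_one]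
      map_add_eq_mul' := fun x y => by rw [map_add, mul_add, AddChar.map_add_eq_mul] }
  have h1 : χ ≠ 1 := by
    intro h
    obtain ⟨g, hg⟩ := hf
    have h2 : χ g = 1 := by rw [h]; rfl
    have h3 : ZMod.stdAddChar (t * f g) = ZMod.stdAddChar (0 : ZMod p) := by
      rw [AddChar.map_zero_eq_one]
      exact h2
    exact mul_ne_zero ht hg (ZMod.injective_stdAddChar h3)
  exact AddChar.sum_eq_zero_of_ne_one h1

end

/-- Module RD. -/
theorem rd (hGF : T_GF) : T_RD := by
  intro G _ _ A s p hA _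
  refine ⟨card_eq hA, fun hp hd => ?_⟩
  have : Fact p.Prime := ⟨hp⟩
  obtain ⟨f, hf⟩ := exists_hom hp hd
  refine ⟨tau A f, fun c => ?_, ?_, fun t ht => ?_⟩
  · unfold tau
    simp only [neg_neg, neg_eq_zero]
    ring
  · have h1 := tau_sum A f (fun _ => (1 : ℝ)) (fun _ => rfl)
    rw [sum_range_zmod (fun x => tau A f x)]
    simp only [mul_one, Finset.sum_const, Finset.card_univ, Fintype.card_coe, nsmul_eq_mul] at h1
    have h2 : ((∑ x : ZMod p, tau A f x : ℕ) : ℝ) = ((2 * #A + 1 : ℕ) : ℝ) := by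
      push_cast
      rw [h1]
      ring
    exact_mod_cast h2
  · have h1 := B_eq (A := A) hGF f t s
    simp only [uu_prod] at h1
    rw [ev_bij hA (fun g => (ZMod.stdAddChar (t * f g) : ℂ)), char_sum hf ht] at h1
    exact_mod_cast h1.symm

end

end Pool.Agent.H54.GA.RD
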